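import Pool.Agent.Helper713_proj.Proj

/-!
A flat box: its parallel bodies and its projections.
-/

set_option autoImplicit false
open MeasureTheory Set Filter Topology
open scoped Pointwise

namespace Pool.Agent.Helper713_proj

/-- a box -/
def Bx (a b c : ℝ) : Set E3 := {x | |x 0| ≤ a ∧ |x 1| ≤ b ∧ |x 2| ≤ c}

theorem Bx_pre (a b c : ℝ) : Bx a b c =
    (MeasurableEquiv.toLp 2 (Fin 3 → ℝ)).symm ⁻¹' (Icc ![-a, -b, -c] ![a, b, c]) := by
  ext x
  simp only [Bx, mem_ofPred_eq, mem_preimage, mem_Icc, Pi.le_def, Fin.forall_fin_succ,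
    Fin.forall_fin_zero_pi, abs_le]
  constructor
  · rintro ⟨h0, h1, h2⟩
    exact ⟨⟨h0.1, h1.1, h2.1, fun i => i.elim0⟩, ⟨h0.2, h1.2, h2.2, fun i => i.elim0⟩⟩
  · rintro ⟨⟨h0, h1, h2, _⟩, ⟨k0, k1, k2, _⟩⟩
    exact ⟨⟨h0, k0⟩, ⟨h1, k1⟩, ⟨h2, k2⟩⟩

theorem vol_Bx {a b c : ℝ} (ha : 0 ≤ a) (hb : 0 ≤ b) (hc : 0 ≤ c) :
    volume (Bx a b c) = ENNReal.ofReal (8 * a * b * c) := by
  rw [Bx_pre, (EuclideanSpace.volume_preserving_symm_measurableEquiv_toLp
    (Fin 3)).measure_preimage_equiv, Real.volume_Icc_pi, Fin.prod_univ_three]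
  simp only [Matrix.cons_val_zero, Matrix.cons_val_one, Matrix.cons_val]
  rw [← ENNReal.ofReal_mul (by linarith), ← ENNReal.ofReal_mul (by nlinarith)]
  congr 1
  ring

theorem Bx_closed (a b c : ℝ) : IsClosed (Bx a b c) := by
  unfold Bx
  have h : ∀ i : Fin 3, Continuous (fun x : E3 => |x i|) := fun i => by fun_prop
  exact (isClosed_le (h 0) continuous_const).inter
    ((isClosed_le (h 1) continuous_const).inter (isClosed_le (h 2) continuous_const))

theorem Bx_norm {a b c : ℝ} {x : E3} (hx : x ∈ Bx a b c) : ‖x‖ ^ 2 ≤ a ^ 2 + b ^ 2 + c ^ 2 := by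
  obtain ⟨h0, h1, h2⟩ := hx
  rw [EuclideanSpace.norm_sq_eq, Fin.sum_univ_three, Real.norm_eq_abs, Real.norm_eq_abs,
    Real.norm_eq_abs]
  have := pow_le_pow_left₀ (abs_nonneg _) h0 2
  have := pow_le_pow_left₀ (abs_nonneg _) h1 2
  have := pow_le_pow_left₀ (abs_nonneg _) h2 2
  linarith

theorem Bx_compact (a b c : ℝ) : IsCompact (Bx a b c) := by
  apply Metric.isCompact_of_isClosed_isBounded (Bx_closed a b c)
  rw [isBounded_iff_forall_norm_le]
  refine ⟨a ^ 2 + b ^ 2 + c ^ 2 + 1, fun x hx => ?_⟩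
  have := Bx_norm hx
  nlinarith [norm_nonneg x, sq_nonneg (‖x‖ - 1)]

theorem Bx_convex (a b c : ℝ) : Convex ℝ (Bx a b c) := by
  rintro x ⟨x0, x1, x2⟩ y ⟨y0, y1, y2⟩ p q hp hq hpq
  have key : ∀ (i : Fin 3) (r : ℝ), |x i| ≤ r → |y i| ≤ r → |(p • x + q • y) i| ≤ r := by
    intro i r h1 h2
    have e : (p • x + q • y) i = p * x i + q * y i := rfl
    rw [e]
    calc |p * x i + q * y i| ≤ |p * x i| + |q * y i| := abs_add_le _ _
      _ = p * |x i| + q * |y i| := by rw [abs_mul, abs_mul, abs_of_nonneg hp, abs_of_nonneg hq]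
      _ ≤ p * r + q * r := add_le_add (mul_le_mul_of_nonneg_left h1 hp)
          (mul_le_mul_of_nonneg_left h2 hq)
      _ = r := by rw [← add_mul, hpq, one_mul]
  exact ⟨key 0 a x0 y0, key 1 b x1 y1, key 2 c x2 y2⟩

theorem abs_coord_le (x : E3) (i : Fin 3) : |x i| ≤ ‖x‖ := by
  have := EuclideanSpace.norm_sq_eq x
  have h1 : ‖x i‖ ^ 2 ≤ ∑ j, ‖x j‖ ^ 2 :=
    Finset.single_le_sum (f := fun j => ‖x j‖ ^ 2) (fun j _ => sq_nonneg _) (Finset.mem_univ i)
  rw [← this] at h1
  have := abs_le_of_sq_le_sq' h1 (norm_nonneg _)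
  rw [← Real.norm_eq_abs]
  exact this.2

theorem ball_sub_Bx {r a b c : ℝ} (ha : r ≤ a) (hb : r ≤ b) (hc : r ≤ c) :
    Metric.closedBall (0 : E3) r ⊆ Bx a b c := by
  intro x hx
  rw [mem_closedBall_zero_iff] at hx
  exact ⟨(abs_coord_le x 0).trans (hx.trans ha), (abs_coord_le x 1).trans (hx.trans hb),
    (abs_coord_le x 2).trans (hx.trans hc)⟩

/-- the volume of the parallel body, upper bound -/
theorem Bx_upper {a b c t : ℝ} (ha : 0 ≤ a) (hb : 0 ≤ b) (hc : 0 ≤ c) (ht : 0 ≤ t) :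
    volume (Bx a b c + Metric.closedBall (0 : E3) t) ≤
      ENNReal.ofReal (8 * (a + t) * (b + t) * (c + t)) := by
  rw [← vol_Bx (by linarith) (by linarith) (by linarith)]
  apply measure_mono
  rintro _ ⟨x, ⟨h0, h1, h2⟩, v, hv, rfl⟩
  rw [mem_closedBall_zero_iff] at hv
  have key : ∀ (i : Fin 3) (r : ℝ), |x i| ≤ r → |(x + v) i| ≤ r + t := by
    intro i r h
    have e : (x + v) i = x i + v i := rfl
    rw [e]
    have := abs_add_le (x i) (v i)
    have := (abs_coord_le v i).trans hv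
    linarith
  exact ⟨key 0 a h0, key 1 b h1, key 2 c h2⟩

/-- clamping -/
theorem clamp {y a t : ℝ} (ha : 0 ≤ a) (ht : 0 ≤ t) (h : |y| ≤ a + t) :
    ∃ z, |z| ≤ a ∧ |y - z| ≤ t := by
  obtain ⟨h1, h2⟩ := abs_le.1 h
  rcases le_or_gt y a with h3 | h3
  · rcases le_or_gt (-a) y with h4 | h4
    · exact ⟨y, abs_le.2 ⟨h4, h3⟩, by rw [sub_self, abs_zero]; exact ht⟩
    · exact ⟨-a, abs_le.2 ⟨le_refl _, by linarith⟩, abs_le.2 ⟨by linarith, by linarith⟩⟩
  · exact ⟨a, abs_le.2 ⟨by linarith, le_refl _⟩, abs_le.2 ⟨by linarith, by linarith⟩⟩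

theorem add_single_mem {K : Set E3} {x : E3} {i : Fin 3} {z t : ℝ}
    (hK : x - EuclideanSpace.single i (x i - z) ∈ K) (hz : |x i - z| ≤ t) :
    x ∈ K + Metric.closedBall (0 : E3) t := by
  refine ⟨_, hK, EuclideanSpace.single i (x i - z), ?_, ?_⟩
  · rw [mem_closedBall_zero_iff, EuclideanSpace.norm_single]
    exact hz
  · show x - EuclideanSpace.single i (x i - z) + EuclideanSpace.single i (x i - z) = x
    rw [sub_add_cancel]

theorem Bx_lower {a b c t : ℝ} (ha : 0 ≤ a) (hb : 0 ≤ b) (hc : 0 ≤ c) (ht : 0 ≤ t) :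
    ENNReal.ofReal (8 * a * b * c + t * (8 * (a * b + b * c + a * c))) ≤
      volume (Bx a b c + Metric.closedBall (0 : E3) t) := by
  set K := Bx a b c with hK
  set A := Bx (a + t) b c with hA
  set B := Bx a (b + t) c with hB
  set C := Bx a b (c + t) with hC
  have hAs : A ⊆ K + Metric.closedBall (0 : E3) t := by
    rintro x ⟨h0, h1, h2⟩
    obtain ⟨z, hz1, hz2⟩ := clamp ha ht h0
    refine add_single_mem (i := 0) (z := z) ⟨?_, ?_, ?_⟩ hz2
    · simpa using hz1
    · simpa using h1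
    · simpa using h2
  have hBs : B ⊆ K + Metric.closedBall (0 : E3) t := by
    rintro x ⟨h0, h1, h2⟩
    obtain ⟨z, hz1, hz2⟩ := clamp hb ht h1
    refine add_single_mem (i := 1) (z := z) ⟨?_, ?_, ?_⟩ hz2
    · simpa using h0
    · simpa using hz1
    · simpa using h2
  have hCs : C ⊆ K + Metric.closedBall (0 : E3) t := by
    rintro x ⟨h0, h1, h2⟩
    obtain ⟨z, hz1, hz2⟩ := clamp hc ht h2
    refine add_single_mem (i := 2) (z := z) ⟨?_, ?_, ?_⟩ hz2
    · simpa using h0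
    · simpa using h1
    · simpa using hz1
  have hsub : A ∪ (B \ K) ∪ (C \ K) ⊆ K + Metric.closedBall (0 : E3) t := by
    rintro x ((hx | hx) | hx)
    · exact hAs hx
    · exact hBs hx.1
    · exact hCs hx.1
  have hKm : MeasurableSet K := (Bx_closed a b c).measurableSet
  have hAm : MeasurableSet A := (Bx_closed _ _ _).measurableSet
  have hBm : MeasurableSet B := (Bx_closed _ _ _).measurableSet
  have hCm : MeasurableSet C := (Bx_closed _ _ _).measurableSet
  have hKB : K ⊆ B := fun x hx => ⟨hx.1, hx.2.1.trans (by linarith), hx.2.2⟩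
  have hKC : K ⊆ C := fun x hx => ⟨hx.1, hx.2.1, hx.2.2.trans (by linarith)⟩
  have hd1 : Disjoint A (B \ K) := by
    rw [Set.disjoint_left]
    rintro x ⟨a0, a1, a2⟩ ⟨⟨b0, b1, b2⟩, hn⟩
    exact hn ⟨b0, a1, a2⟩
  have hd2 : Disjoint (A ∪ (B \ K)) (C \ K) := by
    rw [Set.disjoint_left]
    rintro x (⟨a0, a1, a2⟩ | ⟨⟨b0, b1, b2⟩, _⟩) ⟨⟨c0, c1, c2⟩, hn⟩
    · exact hn ⟨c0, c1, a2⟩
    · exact hn ⟨c0, c1, b2⟩
  have hfin : volume K ≠ ⊤ := (Bx_compact a b c).measure_lt_top.ne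
  refine le_trans ?_ (measure_mono hsub)
  rw [measure_union' hd2 (hAm.union (hBm.diff hKm)), measure_union' hd1 hAm,
    measure_sdiff hKB hKm.nullMeasurableSet hfin, measure_sdiff hKC hKm.nullMeasurableSet hfin,
    hA, hB, hC, hK, vol_Bx (by linarith) hb hc, vol_Bx ha (by linarith) hc,
    vol_Bx (c := c + t) ha hb (by linarith), vol_Bx ha hb hc,
    ← ENNReal.ofReal_sub _ (by positivity), ← ENNReal.ofReal_sub _ (by positivity)]
  have e1 : 0 ≤ 8 * (a + t) * b * c := by positivity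
  have e2 : 8 * a * (b + t) * c - 8 * a * b * c = 8 * a * t * c := by ring
  have e3 : 8 * a * b * (c + t) - 8 * a * b * c = 8 * a * b * t := by ring
  rw [e2, e3, ← ENNReal.ofReal_add e1 (by positivity), ← ENNReal.ofReal_add (by positivity)
    (by positivity)]
  apply ENNReal.ofReal_le_ofReal
  nlinarith

/-- the area of the boundary of the box -/
theorem Bx_lim {a b c : ℝ} (ha : 0 ≤ a) (hb : 0 ≤ b) (hc : 0 ≤ c) :
    Tendsto (fun t : ℝ => ((volume (Bx a b c + Metric.closedBall (0 : E3) t)).toReal -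
      (volume (Bx a b c)).toReal) / (2 * t)) (𝓝[>] 0) (𝓝 (4 * (a * b + b * c + a * c))) := by
  have h1 : Tendsto (fun t : ℝ => 4 * (a * b + b * c + a * c) + 4 * t * (a + b + c) + 4 * t ^ 2)
      (𝓝[>] 0) (𝓝 (4 * (a * b + b * c + a * c))) := by
    have : Continuous (fun t : ℝ => 4 * (a * b + b * c + a * c) + 4 * t * (a + b + c) + 4 * t ^ 2) := by
      fun_prop
    have h := this.tendsto 0
    simp only [mul_zero, zero_mul, add_zero, ne_eq, OfNat.ofNat_ne_zero, not_false_eq_true,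
      zero_pow] at h
    exact h.mono_left nhdsWithin_le_nhds
  refine tendsto_of_tendsto_of_tendsto_of_le_of_le' tendsto_const_nhds h1 ?_ ?_
  · filter_upwards [self_mem_nhdsWithin] with t ht
    have ht' : 0 < t := ht
    have hl := Bx_lower ha hb hc ht'.le
    have hf : volume (Bx a b c + Metric.closedBall (0 : E3) t) ≠ ⊤ :=
      ((Bx_compact a b c).add (isCompact_closedBall _ _)).measure_lt_top.ne
    have hl2 := ENNReal.toReal_mono hf hl
    rw [ENNReal.toReal_ofReal (by positivity)] at hl2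
    rw [vol_Bx ha hb hc, ENNReal.toReal_ofReal (by positivity), le_div_iff₀ (by positivity)]
    linarith
  · filter_upwards [self_mem_nhdsWithin] with t ht
    have ht' : 0 < t := ht
    have hl := Bx_upper ha hb hc ht'.le
    have hl2 := ENNReal.toReal_mono ENNReal.ofReal_ne_top hl
    rw [ENNReal.toReal_ofReal (by positivity)] at hl2
    rw [vol_Bx ha hb hc, ENNReal.toReal_ofReal (by positivity), div_le_iff₀ (by positivity)]
    nlinarith

/-- scaling of the third coordinate -/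
noncomputable def Dg (ε : ℝ) : E3 →ₗ[ℝ] E3 := Matrix.toLpLin 2 2 (Matrix.diagonal ![1, 1, ε])

theorem Dg_det (ε : ℝ) : LinearMap.det (Dg ε) = ε := by
  unfold Dg
  rw [LinearMap.det_toLpLin, Matrix.det_diagonal, Fin.prod_univ_three]
  simp

theorem Dg_0 (ε : ℝ) (x : E3) : Dg ε x 0 = x 0 := by
  simp [Dg, Matrix.toLpLin_apply, Matrix.mulVec_diagonal]

theorem Dg_1 (ε : ℝ) (x : E3) : Dg ε x 1 = x 1 := by
  simp [Dg, Matrix.toLpLin_apply, Matrix.mulVec_diagonal]

theorem Dg_2 (ε : ℝ) (x : E3) : Dg ε x 2 = ε * x 2 := by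
  simp [Dg, Matrix.toLpLin_apply, Matrix.mulVec_diagonal]

theorem Dg_Bx {ε : ℝ} (hε : 0 < ε) : Bx 1 1 ε = Dg ε '' Bx 1 1 1 := by
  ext x
  constructor
  · rintro ⟨h0, h1, h2⟩
    refine ⟨!₂[x 0, x 1, x 2 / ε], ⟨?_, ?_, ?_⟩, ?_⟩
    · simpa using h0
    · simpa using h1
    · have : |x 2 / ε| ≤ 1 := by
        rw [abs_div, abs_of_pos hε, div_le_one hε]
        exact h2
      simpa using this
    · ext i
      fin_cases i
      · show Dg ε _ 0 = x 0
        rw [Dg_0]; rfl
      · show Dg ε _ 1 = x 1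
        rw [Dg_1]; rfl
      · show Dg ε _ 2 = x 2
        rw [Dg_2]
        show ε * (x 2 / ε) = x 2
        field_simp
  · rintro ⟨y, ⟨h0, h1, h2⟩, rfl⟩
    refine ⟨?_, ?_, ?_⟩
    · rw [Dg_0]; exact h0
    · rw [Dg_1]; exact h1
    · rw [Dg_2, abs_mul, abs_of_pos hε]
      nlinarith

/-- orthonormal basis with a prescribed vector -/
theorem exists_basis {u : E3} (hu : ‖u‖ = 1) : ∃ b : OrthonormalBasis (Fin 3) ℝ E3, b 2 = u := by
  have hv : Orthonormal ℝ (({2} : Set (Fin 3)).domRestrict (fun _ : Fin 3 => u)) := by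
    constructor
    · intro i; exact hu
    · rintro ⟨i, hi⟩ ⟨j, hj⟩ hij
      exfalso
      apply hij
      rw [mem_singleton_iff] at hi hj
      subst hi; subst hj; rfl
  obtain ⟨b, hb⟩ := hv.exists_orthonormalBasis_extension_of_card_eq (by simp)
  exact ⟨b, hb 2 rfl⟩

/-- the projections of the cube have area at least one -/
theorem cube_area (b : OrthonormalBasis (Fin 3) ℝ E3) : 1 ≤ volume (Nn b (Bx 1 1 1)) := by
  have hsub : Metric.closedBall (0 : Fin 2 → ℝ) (1 / 2) ⊆ Nn b (Bx 1 1 1) := by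
    intro y hy
    rw [mem_closedBall_zero_iff] at hy
    have h0 : |y 0| ≤ 1 / 2 := (norm_le_pi_norm y 0).trans hy
    have h1 : |y 1| ≤ 1 / 2 := (norm_le_pi_norm y 1).trans hy
    refine ⟨Ps b (y 0 • b 0 + y 1 • b 1), ⟨_, ?_, rfl⟩, ?_⟩
    · apply ball_sub_Bx (le_refl (1 : ℝ)) (le_refl _) (le_refl _)
      rw [mem_closedBall_zero_iff]
      refine (norm_add_le _ _).trans ?_
      rw [norm_smul, norm_smul, b.orthonormal.1, b.orthonormal.1, mul_one, mul_one,
        Real.norm_eq_abs, Real.norm_eq_abs]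
      linarith
    · rw [Ps_add, Ps_basis, Ps_basis]
      ext j
      fin_cases j
      · simp [pr, s20]
      · simp [pr, s21]
  calc (1 : ENNReal) = volume (Metric.closedBall (0 : Fin 2 → ℝ) (1 / 2)) := by
        rw [Real.volume_pi_closedBall _ (by norm_num)]
        simp
    _ ≤ _ := measure_mono hsub

/-- the projections of the flat box have area at least `ε` -/
theorem flat_area {ε : ℝ} (hε : 0 < ε) (hε1 : ε ≤ 1) {u : E3} (hu : ‖u‖ = 1) :
    volume (Bx 1 1 ε) + ENNReal.ofReal ε ≤ volume (Bx 1 1 ε + segment ℝ (0 : E3) u) := by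
  set w : E3 := !₂[u 0, u 1, u 2 / ε] with hw
  have hDw : Dg ε w = u := by
    ext i
    fin_cases i
    · show Dg ε _ 0 = u 0
      rw [Dg_0]; rfl
    · show Dg ε _ 1 = u 1
      rw [Dg_1]; rfl
    · show Dg ε _ 2 = u 2
      rw [Dg_2]
      show ε * (u 2 / ε) = u 2
      field_simp
  have hwn : 1 ≤ ‖w‖ := by
    have h1 : ‖w‖ ^ 2 = u 0 ^ 2 + u 1 ^ 2 + (u 2 / ε) ^ 2 := by
      rw [EuclideanSpace.norm_sq_eq, Fin.sum_univ_three]
      simp only [Real.norm_eq_abs, sq_abs]
      rfl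
    have h2 : ‖u‖ ^ 2 = u 0 ^ 2 + u 1 ^ 2 + u 2 ^ 2 := by
      rw [EuclideanSpace.norm_sq_eq, Fin.sum_univ_three]
      simp only [Real.norm_eq_abs, sq_abs]
    rw [hu, one_pow] at h2
    have h3 : u 2 ^ 2 ≤ (u 2 / ε) ^ 2 := by
      rw [div_pow, le_div_iff₀ (by positivity)]
      have : ε ^ 2 ≤ 1 := by nlinarith
      nlinarith [sq_nonneg (u 2)]
    have h4 : (1 : ℝ) ^ 2 ≤ ‖w‖ ^ 2 := by rw [h1]; linarith
    exact (abs_le_of_sq_le_sq' h4 (norm_nonneg _)).2
  have hw0 : 0 < ‖w‖ := by linarith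
  obtain ⟨b, hb⟩ := exists_basis (u := ‖w‖⁻¹ • w) (by
    rw [norm_smul, norm_inv, norm_norm, inv_mul_cancel₀ hw0.ne'])
  have hwb : w = ‖w‖ • b 2 := by
    rw [hb, smul_smul, mul_inv_cancel₀ hw0.ne', one_smul]
  have himg : Bx 1 1 ε + segment ℝ (0 : E3) u = Dg ε '' (Bx 1 1 1 + segment ℝ (0 : E3) w) := by
    rw [Set.image_add, ← Dg_Bx hε]
    congr 1
    have h := image_segment ℝ (Dg ε).toAffineMap 0 w
    have e1 : (Dg ε).toAffineMap 0 = (0 : E3) := map_zero (Dg ε)
    have e2 : (Dg ε).toAffineMap w = u := hDw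
    rw [e1, e2] at h
    exact h.symm
  have hvol : ∀ S : Set E3, volume (Dg ε '' S) = ENNReal.ofReal ε * volume S := by
    intro S
    rw [Measure.addHaar_image_linearMap, Dg_det, abs_of_pos hε]
  rw [himg, hvol, Dg_Bx hε, hvol]
  conv_rhs => rw [hwb, vol_seg b (Bx_compact 1 1 1) (Bx_convex 1 1 1) hw0.le]
  rw [mul_add]
  gcongr
  calc ENNReal.ofReal ε = ENNReal.ofReal ε * (1 * 1) := by rw [mul_one, mul_one]
    _ ≤ ENNReal.ofReal ε * (ENNReal.ofReal ‖w‖ * volume (Nn b (Bx 1 1 1))) := by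
        gcongr
        · rw [← ENNReal.ofReal_one]
          exact ENNReal.ofReal_le_ofReal hwn
        · exact cube_area b

/-- the first coordinate of the projection has positive length -/
theorem pos_width (b : OrthonormalBasis (Fin 3) ℝ E3) {K : Set E3} {r : ℝ} (hr : 0 < r)
    (hK : Metric.closedBall (0 : E3) r ⊆ K) :
    ENNReal.ofReal (2 * r) ≤ volume (pr 0 '' (Nn b K)) := by
  have hsub : Metric.closedBall (0 : Fin 1 → ℝ) r ⊆ pr 0 '' (Nn b K) := by
    intro y hy
    rw [mem_closedBall_zero_iff] at hy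
    have h0 : |y 0| ≤ r := (norm_le_pi_norm y 0).trans hy
    refine ⟨pr 2 (Ps b (y 0 • b 1)), ⟨_, ⟨y 0 • b 1, ?_, rfl⟩, rfl⟩, ?_⟩
    · apply hK
      rw [mem_closedBall_zero_iff, norm_smul, b.orthonormal.1, mul_one]
      exact h0
    · rw [Ps_basis]
      ext j
      rw [Subsingleton.elim j 0]
      show (Pi.single 1 (y 0) : Fin 3 → ℝ) ((2 : Fin 3).succAbove ((0 : Fin 2).succAbove 0)) = y 0
      have e : (2 : Fin 3).succAbove ((0 : Fin 2).succAbove (0 : Fin 1)) = 1 := rfl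
      rw [e, Pi.single_eq_same]
  calc ENNReal.ofReal (2 * r) = volume (Metric.closedBall (0 : Fin 1 → ℝ) r) := by
        rw [Real.volume_pi_closedBall _ hr.le]
        simp
    _ ≤ _ := measure_mono hsub

/-- bounds for the half perimeter of the projections -/
theorem half_perimeter {K : Set E3} (hK : IsCompact K) (hc : Convex ℝ K) {R r : ℝ}
    (hR : ∀ x ∈ K, ‖x‖ ≤ R) (hr : 0 < r) (hrK : Metric.closedBall (0 : E3) r ⊆ K) {u : E3}
    (hu : ‖u‖ = 1) {L : ℝ}
    (hL : Tendsto (fun t : ℝ =>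
        ((volume ((fun x : E3 => x - (inner ℝ u x) • u) '' K
              + Metric.closedBall (0 : E3) t)).toReal
          - 2 * t * ((volume (K + segment ℝ (0 : E3) u)).toReal
              - (volume K).toReal)) / (Real.pi * t ^ 2))
        (𝓝[>] 0) (𝓝 L)) : 0 < L ∧ L ≤ 16 * R / Real.pi := by
  obtain ⟨b, hb⟩ := exists_basis hu
  have hpi := Real.pi_pos
  have hR0 : 0 ≤ R := (norm_nonneg (0 : E3)).trans
    (hR 0 (hrK (by rw [mem_closedBall_zero_iff, norm_zero]; exact hr.le)))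
  have hvs := vol_seg b hK hc (s := 1) zero_le_one
  rw [one_smul, hb, ENNReal.ofReal_one, one_mul] at hvs
  have hKf : volume K ≠ ⊤ := hK.measure_lt_top.ne
  set N := Nn b K with hN
  have hNc : IsCompact N := pr_image_compact 2 (img_compact b hK)
  have hNf : volume N ≠ ⊤ := hNc.measure_lt_top.ne
  have harea : (volume (K + segment ℝ (0 : E3) u)).toReal - (volume K).toReal =
      (volume N).toReal := by
    rw [hvs, ENNReal.toReal_add hKf hNf]
    ring
  rw [harea] at hL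
  have hPj : ∀ t : ℝ, IsCompact (Pj u K + Metric.closedBall (0 : E3) t) := by
    intro t
    apply IsCompact.add _ (isCompact_closedBall _ _)
    apply hK.image
    fun_prop
  constructor
  · -- lower bound
    have hlow : 2 * r / Real.pi ≤ L := by
      refine ge_of_tendsto hL ?_
      filter_upwards [self_mem_nhdsWithin] with t ht
      have ht' : 0 < t := ht
      have h1 := par_lower b hK hc ht'.le
      rw [hb] at h1
      have h2 : ENNReal.ofReal (2 * t) * volume N +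
          ENNReal.ofReal t * (ENNReal.ofReal t * ENNReal.ofReal (2 * r)) ≤
          volume (Pj u K + Metric.closedBall (0 : E3) t) := by
        refine le_trans ?_ h1
        gcongr
        exact pos_width b hr hrK
      have h3 := ENNReal.toReal_mono (hPj t).measure_lt_top.ne h2
      rw [ENNReal.toReal_add (ENNReal.mul_ne_top ENNReal.ofReal_ne_top hNf)
        (ENNReal.mul_ne_top ENNReal.ofReal_ne_top
          (ENNReal.mul_ne_top ENNReal.ofReal_ne_top ENNReal.ofReal_ne_top)),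
        ENNReal.toReal_mul, ENNReal.toReal_mul, ENNReal.toReal_mul,
        ENNReal.toReal_ofReal (by positivity), ENNReal.toReal_ofReal (by positivity),
        ENNReal.toReal_ofReal (by positivity)] at h3
      rw [div_le_div_iff₀ hpi (by positivity)]
      unfold Pj at h3
      nlinarith
    have : 0 < 2 * r / Real.pi := by positivity
    linarith
  · -- upper bound
    have hlim : Tendsto (fun t : ℝ => (16 * R + 8 * t) / Real.pi) (𝓝[>] 0)
        (𝓝 (16 * R / Real.pi)) := by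
      have : Continuous (fun t : ℝ => (16 * R + 8 * t) / Real.pi) := by fun_prop
      have h := this.tendsto 0
      simp only [mul_zero, add_zero] at h
      exact h.mono_left nhdsWithin_le_nhds
    refine le_of_tendsto_of_tendsto hL hlim ?_
    filter_upwards [self_mem_nhdsWithin] with t ht
    have ht' : 0 < t := ht
    have h1 := par_upper b hK hc hR hR0 ht'.le
    rw [hb] at h1
    have h3 := ENNReal.toReal_mono (by
      apply ENNReal.mul_ne_top ENNReal.ofReal_ne_top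
      apply ENNReal.add_ne_top.2 ⟨ENNReal.add_ne_top.2 ⟨hNf, ?_⟩, ?_⟩
      · exact ENNReal.mul_ne_top ENNReal.ofReal_ne_top ENNReal.ofReal_ne_top
      · exact ENNReal.mul_ne_top ENNReal.ofReal_ne_top ENNReal.ofReal_ne_top) h1
    rw [← hN, ENNReal.toReal_mul, ENNReal.toReal_add (ENNReal.add_ne_top.2 ⟨hNf,
      ENNReal.mul_ne_top ENNReal.ofReal_ne_top ENNReal.ofReal_ne_top⟩)
      (ENNReal.mul_ne_top ENNReal.ofReal_ne_top ENNReal.ofReal_ne_top),
      ENNReal.toReal_add hNf (ENNReal.mul_ne_top ENNReal.ofReal_ne_top ENNReal.ofReal_ne_top),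
      ENNReal.toReal_mul, ENNReal.toReal_mul, ENNReal.toReal_ofReal (by positivity),
      ENNReal.toReal_ofReal (by positivity), ENNReal.toReal_ofReal (by positivity)] at h3
    rw [div_le_div_iff₀ (by positivity) hpi]
    unfold Pj at h3
    nlinarith

end Pool.Agent.Helper713_proj
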