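import Pool.Agent.Helper713_proj.Seg

/-!
Parallel bodies of projections of a compact convex set in space.
-/

set_option autoImplicit false
open MeasureTheory Set
open scoped Pointwise

namespace Pool.Agent.Helper713_proj

abbrev E3 := EuclideanSpace ℝ (Fin 3)

/-- coordinates in an orthonormal basis -/
noncomputable def Ps (b : OrthonormalBasis (Fin 3) ℝ E3) (x : E3) : Fin 3 → ℝ :=
  fun i => inner ℝ (b i) x

theorem Ps_eq (b : OrthonormalBasis (Fin 3) ℝ E3) (x : E3) : Ps b x = (b.repr x).ofLp := by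
  ext i
  exact (b.repr_apply_apply x i).symm

/-- the coordinates as a measurable equivalence -/
noncomputable def Pe (b : OrthonormalBasis (Fin 3) ℝ E3) : E3 ≃ᵐ (Fin 3 → ℝ) :=
  b.measurableEquiv.trans (MeasurableEquiv.toLp 2 (Fin 3 → ℝ)).symm

theorem Pe_apply (b : OrthonormalBasis (Fin 3) ℝ E3) (x : E3) : Pe b x = Ps b x := by
  rw [Ps_eq]; rfl

theorem Pe_mp (b : OrthonormalBasis (Fin 3) ℝ E3) : MeasurePreserving (Pe b) :=
  (EuclideanSpace.volume_preserving_symm_measurableEquiv_toLp (Fin 3)).comp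
    b.measurePreserving_measurableEquiv

theorem vol_pre (b : OrthonormalBasis (Fin 3) ℝ E3) (T : Set (Fin 3 → ℝ)) :
    volume (Ps b ⁻¹' T) = volume T := by
  have h := (Pe_mp b).measure_preimage_equiv T
  rw [← h]
  congr 1
  ext x
  simp only [mem_preimage, Pe_apply]

theorem Ps_add (b : OrthonormalBasis (Fin 3) ℝ E3) (x y : E3) : Ps b (x + y) = Ps b x + Ps b y := by
  ext i; simp [Ps, inner_add_right]

theorem Ps_sub (b : OrthonormalBasis (Fin 3) ℝ E3) (x y : E3) : Ps b (x - y) = Ps b x - Ps b y := by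
  ext i; simp [Ps, inner_sub_right]

theorem Ps_smul (b : OrthonormalBasis (Fin 3) ℝ E3) (c : ℝ) (x : E3) :
    Ps b (c • x) = c • Ps b x := by
  ext i; simp [Ps, inner_smul_right]

theorem Ps_basis (b : OrthonormalBasis (Fin 3) ℝ E3) (i : Fin 3) (s : ℝ) :
    Ps b (s • b i) = Pi.single i s := by
  rw [Ps_smul]
  ext j
  simp only [Ps, Pi.smul_apply, smul_eq_mul]
  rw [orthonormal_iff_ite.1 b.orthonormal]
  by_cases h : j = i
  · subst h; simp
  · simp [h]

theorem Ps_inj (b : OrthonormalBasis (Fin 3) ℝ E3) : Function.Injective (Ps b) := by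
  intro x y h
  have : Pe b x = Pe b y := by rw [Pe_apply, Pe_apply, h]
  exact (Pe b).injective this

theorem Ps_surj (b : OrthonormalBasis (Fin 3) ℝ E3) : Function.Surjective (Ps b) := by
  intro y
  obtain ⟨x, hx⟩ := (Pe b).surjective y
  exact ⟨x, by rw [← Pe_apply, hx]⟩

theorem Ps_cont (b : OrthonormalBasis (Fin 3) ℝ E3) : Continuous (Ps b) := by
  unfold Ps
  fun_prop

theorem abs_Ps_le (b : OrthonormalBasis (Fin 3) ℝ E3) (x : E3) (i : Fin 3) :
    |Ps b x i| ≤ ‖x‖ := by
  have h := abs_real_inner_le_norm (b i) x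
  rw [b.orthonormal.1 i, one_mul] at h
  exact h

theorem pre_image (b : OrthonormalBasis (Fin 3) ℝ E3) (K : Set E3) :
    Ps b ⁻¹' (Ps b '' K) = K := preimage_image_eq K (Ps_inj b)

theorem vol_image (b : OrthonormalBasis (Fin 3) ℝ E3) (K : Set E3) :
    volume (Ps b '' K) = volume K := by
  rw [← vol_pre b, pre_image]

theorem img_compact (b : OrthonormalBasis (Fin 3) ℝ E3) {K : Set E3} (hK : IsCompact K) :
    IsCompact (Ps b '' K) := hK.image (Ps_cont b)

theorem img_convex (b : OrthonormalBasis (Fin 3) ℝ E3) {K : Set E3} (hK : Convex ℝ K) :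
    Convex ℝ (Ps b '' K) := by
  rintro _ ⟨x, hx, rfl⟩ _ ⟨y, hy, rfl⟩ p q hp hq hpq
  exact ⟨p • x + q • y, hK hx hy hp hq hpq, by rw [Ps_add, Ps_smul, Ps_smul]⟩

/-- the projection in coordinates -/
def Nn (b : OrthonormalBasis (Fin 3) ℝ E3) (K : Set E3) : Set (Fin 2 → ℝ) :=
  pr 2 '' (Ps b '' K)

/-- sum with a segment -/
theorem vol_seg (b : OrthonormalBasis (Fin 3) ℝ E3) {K : Set E3} (hK : IsCompact K)
    (hc : Convex ℝ K) {s : ℝ} (hs : 0 ≤ s) :
    volume (K + segment ℝ (0 : E3) (s • b 2)) =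
      volume K + ENNReal.ofReal s * volume (Nn b K) := by
  have h1 : K + segment ℝ (0 : E3) (s • b 2) = Ps b ⁻¹' (sw 2 0 s (Ps b '' K)) := by
    ext x
    rw [mem_preimage]
    constructor
    · rintro ⟨k, hk, v, hv, rfl⟩
      rw [segment_eq_image] at hv
      obtain ⟨r, hr, rfl⟩ := hv
      refine ⟨r * s, ⟨mul_nonneg hr.1 hs, ?_⟩, k, hk, ?_⟩
      · calc r * s ≤ 1 * s := mul_le_mul_of_nonneg_right hr.2 hs
          _ = s := one_mul s
      · show Ps b k = Ps b (k + ((1 - r) • (0 : E3) + r • s • b 2)) - Pi.single 2 (r * s)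
        rw [smul_zero, zero_add, smul_smul, Ps_add, Ps_basis]
        simp
    · rintro ⟨r, hr, k, hk, hk2⟩
      refine ⟨k, hk, r • b 2, ?_, ?_⟩
      · rw [segment_eq_image]
        rcases hs.eq_or_lt with h0 | h0
        · refine ⟨0, ⟨le_refl _, zero_le_one⟩, ?_⟩
          have : r = 0 := by
            have h1 := hr.1; have h2 := hr.2
            rw [← h0] at h2; linarith
          simp [this]
        · refine ⟨r / s, ⟨div_nonneg hr.1 hs, (div_le_one h0).2 hr.2⟩, ?_⟩
          simp only [smul_zero, zero_add, smul_smul]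
          rw [div_mul_cancel₀ _ h0.ne']
      · apply Ps_inj b
        show Ps b (k + r • b 2) = Ps b x
        rw [Ps_add, Ps_basis, hk2]
        simp
  rw [h1, vol_pre, seg_vol 2 (img_compact b hK) (img_convex b hc) hs, vol_image, sub_zero]
  rfl

/-- the orthogonal projection along `u` -/
noncomputable def Pj (u : E3) (K : Set E3) : Set E3 := (fun x : E3 => x - (inner ℝ u x) • u) '' K

theorem sw_subset {n : ℕ} (i : Fin (n + 1)) {a b : ℝ} (ha : a ≤ 0) (hb : 0 ≤ b)
    (M : Set (Fin (n + 1) → ℝ)) : M ⊆ sw i a b M := by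
  intro x hx
  exact ⟨0, ⟨ha, hb⟩, by simpa using hx⟩

theorem vol_fin1 {N : Set (Fin 1 → ℝ)} {R : ℝ} (h : ∀ y ∈ N, |y 0| ≤ R) :
    volume N ≤ ENNReal.ofReal (2 * R) := by
  have hsub : N ⊆ Icc (fun _ => -R) (fun _ => R) := by
    intro y hy
    have := abs_le.1 (h y hy)
    constructor
    · intro i
      rw [Subsingleton.elim i 0]
      exact this.1
    · intro i
      rw [Subsingleton.elim i 0]
      exact this.2
  refine (measure_mono hsub).trans ?_
  rw [Real.volume_Icc_pi]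
  simp only [Finset.univ_unique, Fin.default_eq_zero, Finset.prod_const, Finset.card_singleton,
    pow_one]
  apply ENNReal.ofReal_le_ofReal
  linarith

theorem s21 : Fin.succAbove (2 : Fin 3) (1 : Fin 2) = 1 := rfl
theorem s20 : Fin.succAbove (2 : Fin 3) (0 : Fin 2) = 0 := rfl

/-- upper bound for the parallel body of the projection -/
theorem par_upper (b : OrthonormalBasis (Fin 3) ℝ E3) {K : Set E3} (hK : IsCompact K)
    (hc : Convex ℝ K) {R : ℝ} (hR : ∀ x ∈ K, ‖x‖ ≤ R) (hR0 : 0 ≤ R) {t : ℝ} (ht : 0 ≤ t) :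
    volume (Pj (b 2) K + Metric.closedBall (0 : E3) t) ≤
      ENNReal.ofReal (2 * t) * (volume (Nn b K) + ENNReal.ofReal (2 * t) * ENNReal.ofReal (2 * R) +
        ENNReal.ofReal (2 * t) * ENNReal.ofReal (2 * (R + t))) := by
  set N := Nn b K with hN
  have hNc : IsCompact N := pr_image_compact 2 (img_compact b hK)
  have hNv : Convex ℝ N := pr_image_convex 2 (img_convex b hc)
  set N1 := sw 0 (-t) t N with hN1
  have hN1c : IsCompact N1 := sw_compact 0 hNc
  have hN1v : Convex ℝ N1 := sw_convex 0 hNv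
  set N2 := sw 1 (-t) t N1 with hN2
  have hsub : Pj (b 2) K + Metric.closedBall (0 : E3) t ⊆
      Ps b ⁻¹' {x : Fin 3 → ℝ | x 2 ∈ Icc (-t) t ∧ pr 2 x ∈ N2} := by
    rintro _ ⟨_, ⟨k, hk, rfl⟩, v, hv, rfl⟩
    rw [mem_closedBall_zero_iff] at hv
    have hvi : ∀ i, Ps b v i ∈ Icc (-t) t := fun i => abs_le.1 ((abs_Ps_le b v i).trans hv)
    have e : Ps b ((fun x : E3 => x - (inner ℝ (b 2) x) • b 2) k + v) =
        Ps b k - Pi.single 2 (Ps b k 2) + Ps b v := by
      rw [Ps_add]
      congr 1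
      show Ps b (k - (inner ℝ (b 2) k) • b 2) = _
      rw [Ps_sub, Ps_basis]
      rfl
    show Ps b _ ∈ {x : Fin 3 → ℝ | x 2 ∈ Icc (-t) t ∧ pr 2 x ∈ N2}
    rw [e]
    refine ⟨?_, ?_⟩
    · simpa using hvi 2
    · refine ⟨Ps b v 1, hvi 1, Ps b v 0, hvi 0, Ps b k, ⟨k, hk, rfl⟩, ?_⟩
      ext j
      fin_cases j
      · simp [pr, s20]
      · simp [pr, s21]
  refine (measure_mono hsub).trans ?_
  rw [vol_pre, vol_cyl, Real.volume_Icc]
  have e1 : t - -t = 2 * t := by ring
  rw [e1]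
  gcongr
  rw [hN2, seg_vol 1 hN1c hN1v (by linarith), hN1, seg_vol 0 hNc hNv (by linarith), e1]
  have hNR : ∀ y ∈ N, ∀ i, |y i| ≤ R := by
    rintro _ ⟨_, ⟨k, hk, rfl⟩, rfl⟩ i
    exact (abs_Ps_le b k _).trans (hR k hk)
  gcongr
  · apply vol_fin1
    rintro _ ⟨y, hy, rfl⟩
    exact hNR y hy _
  · apply vol_fin1
    rintro _ ⟨y, ⟨s, hs, hy⟩, rfl⟩
    have h1 := hNR _ hy 0
    have h2 : |y 0 - s| ≤ R := by simpa using h1
    have h3 : |s| ≤ t := abs_le.2 hs
    have h4 : |y 0| ≤ R + t := by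
      have := abs_add_le (y 0 - s) s
      rw [sub_add_cancel] at this
      linarith
    exact h4

/-- lower bound for the parallel body of the projection -/
theorem par_lower (b : OrthonormalBasis (Fin 3) ℝ E3) {K : Set E3} (hK : IsCompact K)
    (hc : Convex ℝ K) {t : ℝ} (ht : 0 ≤ t) :
    ENNReal.ofReal (2 * t) * volume (Nn b K) +
      ENNReal.ofReal t * (ENNReal.ofReal t * volume (pr 0 '' (Nn b K))) ≤
    volume (Pj (b 2) K + Metric.closedBall (0 : E3) t) := by
  set N := Nn b K with hN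
  have hNc : IsCompact N := pr_image_compact 2 (img_compact b hK)
  have hNv : Convex ℝ N := pr_image_convex 2 (img_convex b hc)
  set N1 := sw 0 (-(t / 2)) (t / 2) N with hN1
  have hN1c : IsCompact N1 := sw_compact 0 hNc
  set A : Set (Fin 3 → ℝ) := {x | x 2 ∈ Icc (-t) t ∧ pr 2 x ∈ N} with hA
  set B : Set (Fin 3 → ℝ) := {x | x 2 ∈ Icc (-(t / 2)) (t / 2) ∧ pr 2 x ∈ N1 \ N} with hB
  have hsub : Ps b ⁻¹' (A ∪ B) ⊆ Pj (b 2) K + Metric.closedBall (0 : E3) t := by
    intro x hx
    rcases hx with hx | hx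
    · obtain ⟨hx1, _, ⟨k, hk, rfl⟩, hk2⟩ := hx
      refine ⟨k - (inner ℝ (b 2) k) • b 2, ⟨k, hk, rfl⟩, (Ps b x 2) • b 2, ?_, ?_⟩
      · rw [mem_closedBall_zero_iff, norm_smul, b.orthonormal.1, mul_one, Real.norm_eq_abs]
        exact abs_le.2 hx1
      · apply Ps_inj b
        show Ps b (k - (inner ℝ (b 2) k) • b 2 + (Ps b x 2) • b 2) = Ps b x
        rw [Ps_add, Ps_sub, Ps_basis, Ps_basis]
        have h0 := congrFun hk2 0
        have h1 := congrFun hk2 1
        simp only [pr, s20, s21] at h0 h1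
        ext j
        fin_cases j
        · simpa using h0
        · simpa using h1
        · simp [Ps]
    · obtain ⟨hx1, ⟨s, hs, _, ⟨k, hk, rfl⟩, hk2⟩, _⟩ := hx
      refine ⟨k - (inner ℝ (b 2) k) • b 2, ⟨k, hk, rfl⟩, (Ps b x 2) • b 2 + s • b 0, ?_, ?_⟩
      · rw [mem_closedBall_zero_iff]
        refine (norm_add_le _ _).trans ?_
        rw [norm_smul, norm_smul, b.orthonormal.1, b.orthonormal.1, mul_one, mul_one,
          Real.norm_eq_abs, Real.norm_eq_abs]
        have h1 := abs_le.2 hx1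
        have h2 := abs_le.2 hs
        linarith
      · apply Ps_inj b
        show Ps b (k - (inner ℝ (b 2) k) • b 2 + ((Ps b x 2) • b 2 + s • b 0)) = Ps b x
        rw [Ps_add, Ps_sub, Ps_add, Ps_basis, Ps_basis, Ps_basis]
        have h0 := congrFun hk2 0
        have h1 := congrFun hk2 1
        simp only [pr, Pi.sub_apply, s20, s21] at h0 h1
        ext j
        fin_cases j
        · simp at h0 ⊢
          linarith
        · simpa using h1
        · simp [Ps]
  refine le_trans ?_ (measure_mono hsub)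
  have hAm : MeasurableSet A := by
    apply MeasurableSet.inter
    · exact (measurable_pi_apply 2) measurableSet_Icc
    · exact (pr_cont 2).measurable hNc.measurableSet
  have hdisj : Disjoint A B := by
    rw [Set.disjoint_left]
    rintro x ⟨_, h1⟩ ⟨_, _, h2⟩
    exact h2 h1
  rw [vol_pre, measure_union' hdisj hAm, hA, hB, vol_cyl, vol_cyl, Real.volume_Icc, Real.volume_Icc]
  have e1 : t - -t = 2 * t := by ring
  have e2 : t / 2 - -(t / 2) = t := by ring
  rw [e1, e2]
  gcongr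
  have hfin : volume N ≠ ⊤ := hNc.measure_lt_top.ne
  rw [measure_sdiff (sw_subset 0 (by linarith) (by linarith) N) hNc.nullMeasurableSet hfin,
    seg_vol 0 hNc hNv (by linarith), e2]
  rw [ENNReal.add_sub_cancel_left hfin]

end Pool.Agent.Helper713_proj
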