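import Mathlib

/-!
The volume of the sum of a compact convex set and a segment parallel to a coordinate axis.
-/

set_option autoImplicit false
open MeasureTheory Set

namespace Pool.Agent.Helper713_proj

/-- projection along the `i`-th coordinate -/
def pr {n : ℕ} (i : Fin (n + 1)) (x : Fin (n + 1) → ℝ) : Fin n → ℝ := fun j => x (i.succAbove j)

/-- sum with the segment `[a, b]` of the `i`-th axis -/
def sw {n : ℕ} (i : Fin (n + 1)) (a b : ℝ) (M : Set (Fin (n + 1) → ℝ)) :
    Set (Fin (n + 1) → ℝ) := {x | ∃ s ∈ Icc a b, x - Pi.single i s ∈ M}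

theorem pr_cont {n : ℕ} (i : Fin (n + 1)) : Continuous (pr i : (Fin (n + 1) → ℝ) → Fin n → ℝ) := by
  unfold pr
  fun_prop

theorem sw_eq {n : ℕ} (i : Fin (n + 1)) (a b : ℝ) (M : Set (Fin (n + 1) → ℝ)) :
    sw i a b M = (fun p : (Fin (n + 1) → ℝ) × ℝ => p.1 + Pi.single i p.2) '' (M ×ˢ Icc a b) := by
  ext x
  constructor
  · rintro ⟨s, hs, hx⟩
    exact ⟨(x - Pi.single i s, s), ⟨hx, hs⟩, by simp⟩
  · rintro ⟨⟨y, s⟩, ⟨hy, hs⟩, rfl⟩
    refine ⟨s, hs, ?_⟩
    simpa using hy

theorem cont_single {n : ℕ} (i : Fin (n + 1)) :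
    Continuous (fun s : ℝ => (Pi.single i s : Fin (n + 1) → ℝ)) := by
  apply continuous_pi
  intro j
  by_cases h : j = i
  · subst h
    simp only [Pi.single_eq_same]
    exact continuous_id
  · simp only [Pi.single_eq_of_ne h]
    exact continuous_const

theorem pr_ins {n : ℕ} (i : Fin (n + 1)) (z : ℝ) (y : Fin n → ℝ) :
    pr i (i.insertNth z y) = y := by
  ext j
  simp [pr]

theorem sw_compact {n : ℕ} (i : Fin (n + 1)) {a b : ℝ} {M : Set (Fin (n + 1) → ℝ)}
    (hM : IsCompact M) : IsCompact (sw i a b M) := by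
  rw [sw_eq]
  apply (hM.prod isCompact_Icc).image
  exact continuous_fst.add ((cont_single i).comp continuous_snd)

theorem sw_convex {n : ℕ} (i : Fin (n + 1)) {a b : ℝ} {M : Set (Fin (n + 1) → ℝ)}
    (hM : Convex ℝ M) : Convex ℝ (sw i a b M) := by
  rintro x ⟨s, hs, hx⟩ y ⟨t, ht, hy⟩ p q hp hq hpq
  refine ⟨p * s + q * t, ?_, ?_⟩
  · exact convex_Icc a b hs ht hp hq hpq
  · have h := hM hx hy hp hq hpq
    have e : p • x + q • y - Pi.single i (p * s + q * t) =
        p • (x - Pi.single i s) + q • (y - Pi.single i t) := by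
      rw [smul_sub, smul_sub, ← Pi.single_smul, ← Pi.single_smul, smul_eq_mul, smul_eq_mul,
        Pi.single_add]
      abel
    rw [e]
    exact h

theorem pr_image_compact {n : ℕ} (i : Fin (n + 1)) {M : Set (Fin (n + 1) → ℝ)}
    (hM : IsCompact M) : IsCompact (pr i '' M) := hM.image (pr_cont i)

theorem pr_image_convex {n : ℕ} (i : Fin (n + 1)) {M : Set (Fin (n + 1) → ℝ)}
    (hM : Convex ℝ M) : Convex ℝ (pr i '' M) := by
  rintro _ ⟨x, hx, rfl⟩ _ ⟨y, hy, rfl⟩ p q hp hq hpq
  exact ⟨p • x + q • y, hM hx hy hp hq hpq, by ext j; simp [pr]⟩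

/-- Fubini for a measurable set -/
theorem vol_fub {n : ℕ} (i : Fin (n + 1)) {S : Set (Fin (n + 1) → ℝ)} (hS : MeasurableSet S) :
    volume S = ∫⁻ y : Fin n → ℝ, volume {z : ℝ | i.insertNth z y ∈ S} := by
  have hmp := (volume_preserving_piFinSuccAbove (fun _ : Fin (n + 1) => ℝ) i).symm
  rw [← hmp.measure_preimage_equiv]
  have hS' : MeasurableSet ((MeasurableEquiv.piFinSuccAbove (fun _ : Fin (n + 1) => ℝ) i).symm ⁻¹' S) :=
    (MeasurableEquiv.measurable _) hS
  rw [Measure.volume_eq_prod, Measure.prod_apply_symm hS']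
  rfl

theorem seg_vol {n : ℕ} (i : Fin (n + 1)) {M : Set (Fin (n + 1) → ℝ)} (hM : IsCompact M)
    (hc : Convex ℝ M) {a b : ℝ} (hab : a ≤ b) :
    volume (sw i a b M) = volume M + ENNReal.ofReal (b - a) * volume (pr i '' M) := by
  rw [vol_fub i (sw_compact i hM).measurableSet, vol_fub i hM.measurableSet]
  have hpm : MeasurableSet (pr i '' M) := (pr_image_compact i hM).measurableSet
  have key : ∀ y : Fin n → ℝ, volume {z : ℝ | i.insertNth z y ∈ sw i a b M} =
      volume {z : ℝ | i.insertNth z y ∈ M} +
        (pr i '' M).indicator (fun _ => ENNReal.ofReal (b - a)) y := by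
    intro y
    have hins : ∀ z s : ℝ, (i.insertNth z y : Fin (n + 1) → ℝ) - Pi.single i s =
        i.insertNth (z - s) y := by
      intro z s
      ext j
      refine Fin.succAboveCases i ?_ (fun k => ?_) j
      · simp
      · simp [Fin.succAbove_ne]
    have hSy : {z : ℝ | i.insertNth z y ∈ sw i a b M} =
        {z : ℝ | ∃ s ∈ Icc a b, (i.insertNth (z - s) y : Fin (n + 1) → ℝ) ∈ M} := by
      ext z
      simp only [sw, mem_ofPred_eq, hins]
    by_cases hy : y ∈ pr i '' M
    · rw [indicator_of_mem hy]
      obtain ⟨x, hx, hxy⟩ := hy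
      have hxi : (i.insertNth (x i) y : Fin (n + 1) → ℝ) = x := by
        rw [← hxy]
        exact Fin.insertNth_self_removeNth i x
      set I : Set ℝ := {z : ℝ | (i.insertNth z y : Fin (n + 1) → ℝ) ∈ M} with hI
      have hInc : Continuous (fun z : ℝ => (i.insertNth z y : Fin (n + 1) → ℝ)) := by
        apply continuous_pi
        intro j
        refine Fin.succAboveCases i ?_ (fun k => ?_) j
        · simp only [Fin.insertNth_apply_same]; exact continuous_id
        · simp only [Fin.insertNth_apply_succAbove]; exact continuous_const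
      have hIne : I.Nonempty := ⟨x i, by rw [hI]; show _ ∈ M; rw [hxi]; exact hx⟩
      have hIcl : IsClosed I := hM.isClosed.preimage hInc
      have hIbd : Bornology.IsBounded I := by
        obtain ⟨B, hB⟩ := hM.isBounded.exists_norm_le
        rw [isBounded_iff_forall_norm_le]
        refine ⟨B, fun z hz => ?_⟩
        have h1 := hB _ hz
        have h2 := norm_le_pi_norm (i.insertNth z y : Fin (n + 1) → ℝ) i
        rw [Fin.insertNth_apply_same] at h2
        exact h2.trans h1
      have hIcpt : IsCompact I := Metric.isCompact_of_isClosed_isBounded hIcl hIbd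
      have hIcv : Convex ℝ I := by
        intro z hz w hw p q hp hq hpq
        have h := hc hz hw hp hq hpq
        have e : (i.insertNth (p • z + q • w) y : Fin (n + 1) → ℝ) =
            p • (i.insertNth z y : Fin (n + 1) → ℝ) + q • (i.insertNth w y : Fin (n + 1) → ℝ) := by
          ext j
          refine Fin.succAboveCases i ?_ (fun k => ?_) j
          · simp
          · simp only [Fin.insertNth_apply_succAbove, Pi.add_apply, Pi.smul_apply, smul_eq_mul]
            rw [← add_mul, hpq, one_mul]
        show _ ∈ M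
        rw [e]
        exact h
      have hIeq := eq_Icc_of_connected_compact ⟨hIne, hIcv.isPreconnected⟩ hIcpt
      set p := sInf I
      set q := sSup I
      have hpq : p ≤ q := by
        rw [hIeq] at hIne
        exact nonempty_Icc.1 hIne
      have hSe : {z : ℝ | i.insertNth z y ∈ sw i a b M} = Icc (p + a) (q + b) := by
        rw [hSy]
        ext z
        constructor
        · rintro ⟨s, hs, hz⟩
          have hz' : z - s ∈ I := hz
          rw [hIeq] at hz'
          constructor <;> linarith [hs.1, hs.2, hz'.1, hz'.2]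
        · intro hz
          -- choose s
          have h1 : ∃ s ∈ Icc a b, z - s ∈ Icc p q := by
            refine ⟨max a (z - q), ⟨le_max_left _ _, max_le hab (by linarith [hz.2])⟩, ?_, ?_⟩
            · have : max a (z - q) ≤ z - p := max_le (by linarith [hz.1]) (by linarith)
              linarith
            · have := le_max_right a (z - q)
              linarith
          obtain ⟨s, hs, hz2⟩ := h1
          refine ⟨s, hs, ?_⟩
          rw [← hIeq] at hz2
          exact hz2
      rw [hSe, hIeq, Real.volume_Icc, Real.volume_Icc, ← ENNReal.ofReal_add (by linarith) (by linarith)]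
      congr 1
      ring
    · rw [indicator_of_notMem hy, add_zero]
      have e1 : {z : ℝ | i.insertNth z y ∈ M} = ∅ := by
        rw [eq_empty_iff_forall_notMem]
        intro z hz
        apply hy
        exact ⟨_, hz, pr_ins i z y⟩
      have e2 : {z : ℝ | i.insertNth z y ∈ sw i a b M} = ∅ := by
        rw [hSy, eq_empty_iff_forall_notMem]
        rintro z ⟨s, _, hz⟩
        apply hy
        exact ⟨_, hz, pr_ins i (z - s) y⟩
      rw [e1, e2]
  simp_rw [key]
  rw [lintegral_add_right _ (measurable_const.indicator hpm), lintegral_indicator_const hpm]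

/-- volume of a product set -/
theorem vol_cyl {n : ℕ} (i : Fin (n + 1)) (N : Set (Fin n → ℝ)) (I : Set ℝ) :
    volume {x : Fin (n + 1) → ℝ | x i ∈ I ∧ pr i x ∈ N} = volume I * volume N := by
  have hmp := volume_preserving_piFinSuccAbove (fun _ : Fin (n + 1) => ℝ) i
  have h := hmp.measure_preimage_equiv (I ×ˢ N)
  rw [Measure.volume_eq_prod, Measure.prod_prod] at h
  rw [← h]
  rfl

end Pool.Agent.Helper713_proj
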